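import Pool.Agent.R333.SubC

/-!
# `gcd([β [α b ^ m] ^ 2], b ^ m) < b ^ (ε m)` for all large `m`

The subspace theorem is applied to the vector `(b^{2m}, b^m x, x², w, b^m, x, 1)`, `x = [α b^m]`,
`w = [β x²]`; the resulting linear relation shows that the fractional part of `α b^m` is within
`O(b^{-m})` of a fixed algebraic number for infinitely many `m`, which contradicts the subspace
theorem for the vector `(b^m, 1, x)`.
-/

set_option autoImplicit false

open Finset Filter Topology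

namespace Pool.Agent.Results.MP_28dc30_nt.SmallGcd

open Pool.Agent.R333.SubR

/-- `w = [β [α b ^ m] ^ 2]` -/
noncomputable def f (b : ℕ) (α β : ℝ) (m : ℕ) : ℤ := ⌊β * (⌊α * (b : ℝ) ^ m⌋ : ℝ) ^ 2⌋

theorem result (b : ℕ) (hb : 2 ≤ b) (α β : ℝ) (hα : Irrational α) (hα2 : IsAlgebraic ℚ α)
    (hβ : Irrational β) (hβ2 : IsAlgebraic ℚ β) (ε : ℝ) (hε : 0 < ε) :
    ∃ M : ℕ, ∀ m : ℕ, M ≤ m → (Int.gcd (f b α β m) ((b : ℤ) ^ m) : ℝ) < (b : ℝ) ^ (ε * m) := by
  by_contra hcon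
  push Not at hcon
  have hP : ∃ᶠ m : ℕ in atTop,
      (b : ℝ) ^ (ε * m) ≤ (Int.gcd (f b α β m) ((b : ℤ) ^ m) : ℝ) := by
    rw [frequently_atTop]
    intro M
    obtain ⟨m, hm1, hm2⟩ := hcon M
    exact ⟨m, hm1, hm2⟩
  have hb0 : (0 : ℝ) < b := by exact_mod_cast (by omega : 0 < b)
  have hb1 : (1 : ℝ) < b := by exact_mod_cast (by omega : 1 < b)
  have hLb : 0 < Real.log b := Real.log_pos hb1
  have h0 : IsAlgebraic ℚ (0 : ℝ) := isAlgebraic_zero
  have h1 : IsAlgebraic ℚ (1 : ℝ) := isAlgebraic_one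
  have h2 : IsAlgebraic ℚ (2 : ℝ) := by
    have := h1.add h1
    norm_num at this
    exact this
  have hB : ∀ m : ℕ, (1 : ℝ) ≤ (b : ℝ) ^ m := fun m =>
    one_le_pow₀ (by exact_mod_cast (by omega : 1 ≤ b))
  -- the fractional part of `β x²`
  have hτ : ∀ m, |β * (⌊α * (b : ℝ) ^ m⌋ : ℝ) ^ 2 - f b α β m| ≤ 1 := by
    intro m
    unfold f
    have e1 := Int.floor_le (β * (⌊α * (b : ℝ) ^ m⌋ : ℝ) ^ 2)
    have e2 := Int.lt_floor_add_one (β * (⌊α * (b : ℝ) ^ m⌋ : ℝ) ^ 2)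
    rw [abs_le]
    constructor <;> linarith
  obtain ⟨y, hy, hfr⟩ := sub_real (n := 7) (by norm_num) b hb
    (Matrix.of ![![1, 0, 0, 0, 0, 0, 0], ![α, -1, 0, 0, 0, 0, 0], ![α * α, -(2 * α), 1, 0, 0, 0, 0],
      ![0, 0, β, -1, 0, 0, 0], ![0, 0, 0, 0, 1, 0, 0], ![0, 0, 0, 0, α, -1, 0],
      ![0, 0, 0, 0, 0, 0, 1]])
    (by
      intro i j
      fin_cases i <;> fin_cases j <;>
        simp [h0, h1, hα2, hβ2, h1.neg, hα2.mul hα2, (h2.mul hα2).neg])
    (by
      intro i j hij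
      fin_cases i <;> fin_cases j <;> simp at hij ⊢)
    (by intro i; fin_cases i <;> simp)
    (fun m => (b : ℝ) ^ (ε * m) ≤ (Int.gcd (f b α β m) ((b : ℤ) ^ m) : ℝ)) hP
    (fun m => ![((b : ℤ) ^ m) ^ 2, (b : ℤ) ^ m * ⌊α * (b : ℝ) ^ m⌋, ⌊α * (b : ℝ) ^ m⌋ ^ 2, f b α β m,
      (b : ℤ) ^ m, ⌊α * (b : ℝ) ^ m⌋, 1])
    (by
      intro m _ h
      have h2 := congrFun h 6
      simp at h2)
    (fun m => ![(b ^ m) ^ 2, b ^ m, 1, Int.gcd (f b α β m) ((b : ℤ) ^ m), b ^ m, 1, 1]) 2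
    (by
      intro m l _
      have e2 : b ^ m ∣ b ^ (2 * m) := pow_dvd_pow b (by omega)
      have e3 : Int.gcd (f b α β m) ((b : ℤ) ^ m) ∣ b ^ m := by
        have := Int.gcd_dvd_natAbs_right (f b α β m) ((b : ℤ) ^ m)
        simpa [Int.natAbs_pow] using this
      fin_cases l
      · simp only [Fin.zero_eta, Fin.isValue, Matrix.cons_val_zero]
        rw [← pow_mul, mul_comm m 2]
      · exact e2
      · exact one_dvd _
      · exact e3.trans e2
      · exact e2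
      · exact one_dvd _
      · exact one_dvd _)
    (by
      intro m l _
      fin_cases l
      · simp
      · simp
      · simp
      · exact Int.gcd_dvd_left _ _
      · simp
      · simp
      · simp)
    ![2, 1, 0, 0, 1, 0, 0] 1 one_pos
    (by
      intro m l hm
      have hs := s_abs α b m
      have hs0 := s_nonneg α b m
      have hB' := hB m
      have hx := floor_eq α b m
      fin_cases l
      · simp only [Fin.zero_eta, Fin.isValue, Matrix.of_apply, Fin.sum_univ_seven, Matrix.cons_val_zero,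
          Matrix.cons_val_one, Matrix.cons_val]
        rw [rp2]
        push_cast
        rw [abs_of_nonneg (by nlinarith [sq_nonneg ((b : ℝ) ^ m)])]
        linarith
      · simp only [Fin.mk_one, Fin.isValue, Matrix.of_apply, Fin.sum_univ_seven, Matrix.cons_val_zero,
          Matrix.cons_val_one, Matrix.cons_val]
        rw [rp1]
        push_cast
        have e : α * ((b : ℝ) ^ m) ^ 2 + -1 * ((b : ℝ) ^ m * (⌊α * (b : ℝ) ^ m⌋ : ℝ)) +
            0 * (⌊α * (b : ℝ) ^ m⌋ : ℝ) ^ 2 + 0 * (f b α β m : ℝ) + 0 * (b : ℝ) ^ m +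
            0 * (⌊α * (b : ℝ) ^ m⌋ : ℝ) + 0 * 1 = s α b m * (b : ℝ) ^ m := by
          rw [hx]; ring
        rw [e, abs_mul, abs_of_nonneg (by linarith : (0 : ℝ) ≤ (b : ℝ) ^ m)]
        exact mul_le_mul_of_nonneg_right hs (by linarith)
      · simp only [Fin.reduceFinMk, Fin.isValue, Matrix.of_apply, Fin.sum_univ_seven,
          Matrix.cons_val_zero, Matrix.cons_val_one, Matrix.cons_val]
        rw [rp0]
        push_cast
        have e : α * α * ((b : ℝ) ^ m) ^ 2 + -(2 * α) * ((b : ℝ) ^ m * (⌊α * (b : ℝ) ^ m⌋ : ℝ)) +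
            1 * (⌊α * (b : ℝ) ^ m⌋ : ℝ) ^ 2 + 0 * (f b α β m : ℝ) + 0 * (b : ℝ) ^ m +
            0 * (⌊α * (b : ℝ) ^ m⌋ : ℝ) + 0 * 1 = s α b m * s α b m := by
          rw [hx]; ring
        rw [e, abs_mul]
        have := abs_nonneg (s α b m)
        nlinarith
      · simp only [Fin.reduceFinMk, Fin.isValue, Matrix.of_apply, Fin.sum_univ_seven,
          Matrix.cons_val_zero, Matrix.cons_val_one, Matrix.cons_val]
        rw [rp0]
        push_cast
        have e : 0 * ((b : ℝ) ^ m) ^ 2 + 0 * ((b : ℝ) ^ m * (⌊α * (b : ℝ) ^ m⌋ : ℝ)) +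
            β * (⌊α * (b : ℝ) ^ m⌋ : ℝ) ^ 2 + -1 * (f b α β m : ℝ) + 0 * (b : ℝ) ^ m +
            0 * (⌊α * (b : ℝ) ^ m⌋ : ℝ) + 0 * 1 = β * (⌊α * (b : ℝ) ^ m⌋ : ℝ) ^ 2 - f b α β m := by
          ring
        rw [e]
        linarith [hτ m]
      · simp only [Fin.reduceFinMk, Fin.isValue, Matrix.of_apply, Fin.sum_univ_seven,
          Matrix.cons_val_zero, Matrix.cons_val_one, Matrix.cons_val]
        rw [rp1]
        push_cast
        rw [show ∀ A B C D E : ℝ, 0 * A + 0 * B + 0 * C + 0 * D + 1 * (b : ℝ) ^ m + 0 * E + 0 * 1 =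
          (b : ℝ) ^ m by intros; ring, abs_of_nonneg (by linarith)]
        linarith
      · simp only [Fin.reduceFinMk, Fin.isValue, Matrix.of_apply, Fin.sum_univ_seven,
          Matrix.cons_val_zero, Matrix.cons_val_one, Matrix.cons_val]
        rw [rp0]
        push_cast
        have e : 0 * ((b : ℝ) ^ m) ^ 2 + 0 * ((b : ℝ) ^ m * (⌊α * (b : ℝ) ^ m⌋ : ℝ)) +
            0 * (⌊α * (b : ℝ) ^ m⌋ : ℝ) ^ 2 + 0 * (f b α β m : ℝ) + α * (b : ℝ) ^ m +
            -1 * (⌊α * (b : ℝ) ^ m⌋ : ℝ) + 0 * 1 = s α b m := by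
          rw [hx]; ring
        rw [e]
        linarith
      · simp only [Fin.reduceFinMk, Fin.isValue, Matrix.of_apply, Fin.sum_univ_seven,
          Matrix.cons_val_zero, Matrix.cons_val_one, Matrix.cons_val]
        rw [rp0]
        push_cast
        rw [show ∀ A B C D E F : ℝ, 0 * A + 0 * B + 0 * C + 0 * D + 0 * E + 0 * F + 1 * 1 =
          (1 : ℝ) by intros; ring, abs_one]
        linarith)
    ε hε
    (by
      intro m hm
      have e1 : (b : ℝ) ^ (ε * m) ≤ (Int.gcd (f b α β m) ((b : ℤ) ^ m) : ℝ) := hm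
      have e2 := Real.log_le_log (by positivity) e1
      rw [Real.log_rpow hb0] at e2
      simp only [Fin.sum_univ_seven, Matrix.cons_val_zero, Matrix.cons_val_one, Matrix.cons_val]
      push_cast
      rw [Real.log_pow, Real.log_pow, Real.log_one]
      push_cast
      nlinarith)
  -- the relation
  set P2 : ℝ := y 0 + y 1 * α + (y 2 + β * y 3) * α * α with hP2
  set E : ℝ := y 1 + 2 * α * (y 2 + β * y 3) with hE
  set F : ℝ := y 4 + y 5 * α with hF
  set τ : ℕ → ℝ := fun m => β * (⌊α * (b : ℝ) ^ m⌋ : ℝ) ^ 2 - f b α β m with hτdef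
  set R : ℕ → ℝ := fun m => (y 2 + β * y 3) * (s α b m * s α b m) - y 3 * τ m - y 5 * s α b m + y 6
    with hR
  have hexp : ∃ᶠ m : ℕ in atTop, P2 * ((b : ℝ) ^ m) ^ 2 + (F - E * s α b m) * (b : ℝ) ^ m + R m = 0 := by
    refine hfr.mono fun m hm => ?_
    have h3 := hm.2
    simp only [Fin.sum_univ_seven, Matrix.cons_val_zero, Matrix.cons_val_one, Matrix.cons_val] at h3
    have h4 : (((y 0 * ((b : ℤ) ^ m) ^ 2 + y 1 * ((b : ℤ) ^ m * ⌊α * (b : ℝ) ^ m⌋) +
        y 2 * ⌊α * (b : ℝ) ^ m⌋ ^ 2 + y 3 * f b α β m + y 4 * (b : ℤ) ^ m +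
        y 5 * ⌊α * (b : ℝ) ^ m⌋ + y 6 * 1 : ℤ)) : ℝ) = 0 := by
      rw [h3]; norm_num
    push_cast at h4
    have h5 : (f b α β m : ℝ) = β * (⌊α * (b : ℝ) ^ m⌋ : ℝ) ^ 2 - τ m := by rw [hτdef]; ring
    rw [h5, floor_eq] at h4
    rw [← h4, hP2, hE, hF, hR]
    ring
  set K : ℝ := |F| + |E| + (|y 2 + β * y 3| + |(y 3 : ℝ)| + |(y 5 : ℝ)| + |(y 6 : ℝ)|) with hK
  have hRle : ∀ m, |R m| ≤ |y 2 + β * y 3| + |(y 3 : ℝ)| + |(y 5 : ℝ)| + |(y 6 : ℝ)| := by
    intro m
    have hs := s_abs α b m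
    have hss : |s α b m * s α b m| ≤ 1 := by
      rw [abs_mul]; nlinarith [abs_nonneg (s α b m)]
    have ht : |τ m| ≤ 1 := hτ m
    have e1 : |(y 2 + β * y 3) * (s α b m * s α b m)| ≤ |y 2 + β * y 3| := by
      rw [abs_mul]; nlinarith [abs_nonneg (y 2 + β * y 3)]
    have e2 : |y 3 * τ m| ≤ |(y 3 : ℝ)| := by
      rw [abs_mul]; nlinarith [abs_nonneg (y 3 : ℝ)]
    have e3 : |y 5 * s α b m| ≤ |(y 5 : ℝ)| := by
      rw [abs_mul]; nlinarith [abs_nonneg (y 5 : ℝ)]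
    calc |R m| ≤ |(y 2 + β * y 3) * (s α b m * s α b m) - y 3 * τ m - y 5 * s α b m| + |(y 6 : ℝ)| :=
          abs_add_le _ _
      _ ≤ |(y 2 + β * y 3) * (s α b m * s α b m) - y 3 * τ m| + |y 5 * s α b m| + |(y 6 : ℝ)| := by
          gcongr; exact abs_sub _ _
      _ ≤ |(y 2 + β * y 3) * (s α b m * s α b m)| + |y 3 * τ m| + |y 5 * s α b m| + |(y 6 : ℝ)| := by
          gcongr; exact abs_sub _ _
      _ ≤ _ := by linarith
  -- the leading coefficient
  have hP20 : P2 = 0 := by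
    apply coef_zero hb _ K
    refine hexp.mono fun m hm => ?_
    have hB' := hB m
    have e1 : P2 * ((b : ℝ) ^ m) ^ 2 = -((F - E * s α b m) * (b : ℝ) ^ m + R m) := by linarith
    have e2 : |P2| * ((b : ℝ) ^ m) ^ 2 ≤ (|F| + |E|) * (b : ℝ) ^ m + |R m| := by
      have e3 := congrArg abs e1
      rw [abs_mul, abs_neg, abs_of_nonneg (by positivity : (0 : ℝ) ≤ ((b : ℝ) ^ m) ^ 2)] at e3
      rw [e3]
      refine (abs_add_le _ _).trans ?_
      gcongr
      rw [abs_mul, abs_of_nonneg (by linarith : (0 : ℝ) ≤ (b : ℝ) ^ m)]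
      apply mul_le_mul_of_nonneg_right _ (by linarith)
      refine (abs_sub _ _).trans ?_
      rw [abs_mul]
      have := s_abs α b m
      have := abs_nonneg E
      nlinarith
    have e4 := hRle m
    have e5 : |P2| * (b : ℝ) ^ m * (b : ℝ) ^ m ≤ K * (b : ℝ) ^ m := by
      have e6 : 0 ≤ |y 2 + β * y 3| + |(y 3 : ℝ)| + |(y 5 : ℝ)| + |(y 6 : ℝ)| := by positivity
      rw [hK]
      nlinarith
    exact le_of_mul_le_mul_right e5 (by linarith)
  have hexp2 : ∃ᶠ m : ℕ in atTop, |F - E * s α b m| * (b : ℝ) ^ m ≤ K := by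
    refine hexp.mono fun m hm => ?_
    have hB' := hB m
    rw [hP20, zero_mul, zero_add] at hm
    have e1 : (F - E * s α b m) * (b : ℝ) ^ m = -R m := by linarith
    have e3 := congrArg abs e1
    rw [abs_mul, abs_neg, abs_of_nonneg (by linarith : (0 : ℝ) ≤ (b : ℝ) ^ m)] at e3
    rw [e3]
    have e4 := hRle m
    have := abs_nonneg F
    have := abs_nonneg E
    linarith
  have hyalg : ∀ i, IsAlgebraic ℚ ((y i : ℤ) : ℝ) := fun i => isAlgebraic_intCast (y i)
  by_cases hE0 : E = 0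
  · have hF0 : F = 0 := by
      apply coef_zero hb _ K
      refine hexp2.mono fun m hm => ?_
      rwa [hE0, zero_mul, sub_zero] at hm
    have hα0 : α ≠ 0 := hα.ne_zero
    have e1 : ((2 * y 0 : ℤ) : ℝ) + (y 1 : ℤ) * α = 0 := by
      push_cast
      linear_combination 2 * hP20 - α * hE0
    obtain ⟨g0, g1⟩ := lin_rel hα e1
    have g0' : y 0 = 0 := by omega
    have e2 : (y 2 : ℝ) + (y 3 : ℤ) * β = 0 := by
      have e3 : 2 * α * ((y 2 : ℝ) + (y 3 : ℤ) * β) = 0 := by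
        have : (y 1 : ℝ) = 0 := by exact_mod_cast g1
        linear_combination hE0 - this
      rcases mul_eq_zero.1 e3 with h | h
      · exact absurd h (by positivity)
      · exact h
    obtain ⟨g2, g3⟩ := lin_rel hβ e2
    obtain ⟨g4, g5⟩ := lin_rel hα hF0
    have g6 : y 6 = 0 := by
      obtain ⟨m, hm⟩ := hexp.exists
      rw [hP20, hF0, hE0] at hm
      simp only [hR, g2, g3, g5, Int.cast_zero] at hm
      have : (y 6 : ℝ) = 0 := by linarith
      exact_mod_cast this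
    apply hy
    funext l
    fin_cases l
    · exact g0'
    · exact g1
    · exact g2
    · exact g3
    · exact g4
    · exact g5
    · exact g6
  · have hFalg : IsAlgebraic ℚ F := (hyalg 4).add ((hyalg 5).mul hα2)
    have hEalg : IsAlgebraic ℚ E :=
      (hyalg 1).add ((h2.mul hα2).mul ((hyalg 2).add (hβ2.mul (hyalg 3))))
    refine no_const hb hα hα2 (hFalg.mul hEalg.inv) (K / |E|) (hexp2.mono fun m hm => ?_)
    have hE' : 0 < |E| := abs_pos.2 hE0
    rw [le_div_iff₀ hE']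
    have e1 : |s α b m - F * E⁻¹| * |E| = |F - E * s α b m| := by
      rw [← abs_mul, ← abs_neg (F - E * s α b m)]
      congr 1
      field_simp
      ring
    calc |s α b m - F * E⁻¹| * (b : ℝ) ^ m * |E| = (|s α b m - F * E⁻¹| * |E|) * (b : ℝ) ^ m := by ring
      _ ≤ K := by rw [e1]; exact hm

end Pool.Agent.Results.MP_28dc30_nt.SmallGcd
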